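import Pool.Agent.helper64.NQ.Spec
import Pool.Agent.helper24.DI.D6
import Pool.Agent.helper55.DC.ST

/-!
# Project nq (MP_baa4d7_al), module ZER
-/

set_option autoImplicit false

namespace Pool.Agent.NQ

open Pool.Agent.helper58.DC Pool.Agent.DI Pool.Agent.DR

theorem ZER_stable (hIM : IM_stmt) (hIF : IF_stmt) (hTI : TI_stmt) {G E A : Type} [Group G] [Group E]
    [Group A] [Finite G] (X : Extension G E A) (M : Ideal (integralClosure ℤ ℂ)) (χ : G → ℂ)
    (hχ : χ ∈ Irr G) (C : Finset (Subgroup G)) (ψ : G → ℂ) (hind : Induces M ψ χ)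
    (htop : (X.stab C ψ).map X.proj = ⊤) : Stable X M χ := by
  intro e
  have he : X.proj e ∈ (X.stab C ψ).map X.proj := by rw [htop]; trivial
  obtain ⟨n, hn, hne⟩ := Subgroup.mem_map.1 he
  have h1 : X.proj (n⁻¹ * e) = 1 := by
    rw [map_mul, map_inv, hne, inv_mul_cancel]
  obtain ⟨g, hg⟩ := (X.exact _).1 h1
  have he2 : e = n * X.inc g := by rw [hg, mul_inv_cancel_left]
  have hcl : funMap (MulAut.conj g) χ = χ := by
    funext x
    have h2 := ((hIF G ⊤).2 χ ((hTI G χ).2 hχ)).2.1 g⁻¹ (Subgroup.mem_top _) x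
    show χ ((MulAut.conj g)⁻¹ x) = χ x
    rw [← map_inv, MulAut.conj_apply]
    exact h2
  have h3 : funMap (X.act e) χ = funMap (X.act n) χ := by
    rw [he2, map_mul, Pool.Agent.helper55.DC.ST_funMap_mul, Pool.Agent.helper55.DC.ST_act_inc, hcl]
  have hfix : funMap (X.act n) ψ = ψ := hn.2
  have h4 : Induces M ψ (funMap (X.act n) χ) := by
    have h5 := ((hIM G M ψ χ χ).2.2.2 (X.act n)).2 hind
    rwa [hfix] at h5
  rw [h3]
  have h6 : Induces M (funMap (X.act n) χ) ψ := (hIM G M ψ (funMap (X.act n) χ) χ).2.1 h4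
  exact (hIM G M (funMap (X.act n) χ) ψ χ).2.2.1 h6 hind

theorem ZER (hA13 : A13_stmt) (hB2 : Pool.Agent.DI.B2_stmt) (hC11 : C11_stmt) (hC14 : C14_stmt)
    (hTI : TI_stmt) (hIM : IM_stmt) (hIF : IF_stmt) : ZER_stmt := by
  intro G E A _ _ _ _ _ X p _ M hM hpM χ hχ hpos d hd Φ
  unfold altSumP
  have h0 : ∀ c : Quot (chainRel (G := G) p), kCP X p M χ d Φ c.out.1 = 0 := by
    intro c
    unfold kCP
    have : IsEmpty {ψ : G → ℂ // ψ ∈ IrrOn (nrm c.out.1) ∧ Defect p (nrm c.out.1) ψ d ∧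
        Induces M ψ χ ∧ (X.stab c.out.1 ψ).map X.proj = ⊤ ∧ Φ c.out.1 ψ} := by
      refine ⟨?_⟩
      rintro ⟨ψ, h1, h2, h3, h4, -⟩
      rcases hd with hd | hd
      · exact D6_empty hA13 hB2 hC11 hC14 hTI hIM G p M hM hpM χ hpos d hd c.out.1 c.out.2 ψ
          h1 h2 h3
      · exact hd (ZER_stable hIM hIF hTI X M χ hχ c.out.1 ψ h3 h4)
    exact Nat.card_of_isEmpty
  simp [h0]

end Pool.Agent.NQ
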